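import Pool.Agent.U29.CY.Stm2

/-!
# Project CY (helper29), package UE: the expanding case of the cycle estimate
-/

set_option autoImplicit false

namespace Pool.Agent.U394.CY

open Finset MeasureTheory Filter Pool.Agent.U762.RP Pool.Agent.U29.CY

theorem Q_le {d : ℕ} {m r : ℤ → ℤ} {w : ℤ → ℝ} {B : ℕ} {M c : ℝ} (hw : ∀ u, 0 ≤ w u)
    {F G : ℤ → ℝ} (h : ∀ z, F z ≤ c * G z) (y : ℤ) : Q d m r w B M F y ≤ c * Q d m r w B M G y := by
  unfold Q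
  split_ifs with h1
  · rw [mul_zero]
  · rw [mul_sum]
    refine sum_le_sum fun u _ => ?_
    have h2 := mul_le_mul_of_nonneg_left (h (T d m r y + u)) (hw u)
    calc w u * F (T d m r y + u) ≤ w u * (c * G (T d m r y + u)) := h2
      _ = c * (w u * G (T d m r y + u)) := by ring

theorem Q_iter_le {d : ℕ} {m r : ℤ → ℤ} {w : ℤ → ℝ} {B : ℕ} {M c : ℝ} (hw : ∀ u, 0 ≤ w u)
    {F G : ℤ → ℝ} (h : ∀ z, F z ≤ c * G z) (n : ℕ) :
    ∀ y : ℤ, (Q d m r w B M)^[n] F y ≤ c * (Q d m r w B M)^[n] G y := by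
  induction n with
  | zero => exact h
  | succ n ih =>
    intro y
    rw [Function.iterate_succ_apply', Function.iterate_succ_apply']
    exact Q_le hw ih y

theorem t_UE : S_UE := by
  intro hPRC d m r ε K hDec B μ _ hLaw
  obtain ⟨M₀, C, lam, θ, hM, hC, hl0, hl1, hθ0, hθ1, h⟩ := hDec (max B (d ^ K)) (le_max_right _ _)
  have hsum : ∑ u ∈ Icc (-((max B (d ^ K) : ℕ) : ℤ)) ((max B (d ^ K) : ℕ) : ℤ), μ.real {u} ≤ 1 := by
    have h1 : μ.real (↑(Icc (-((max B (d ^ K) : ℕ) : ℤ)) ((max B (d ^ K) : ℕ) : ℤ)) : Set ℤ) =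
        ∑ u ∈ Icc (-((max B (d ^ K) : ℕ) : ℤ)) ((max B (d ^ K) : ℕ) : ℤ), μ.real {u} := by
      rw [sum_measureReal_singleton]
    rw [← h1]
    exact measureReal_le_one
  have hbdd : μ {u : ℤ | ((max B (d ^ K) : ℕ) : ℤ) < |u|} = 0 := by
    refine measure_mono_null (fun u hu => ?_) hLaw.bdd
    have hu' : ((max B (d ^ K) : ℕ) : ℤ) < |u| := hu
    show (B : ℤ) < |u|
    exact lt_of_le_of_lt (Nat.cast_le.2 (le_max_left _ _)) hu'
  refine ⟨M₀, C, lam, hM, hC, hl0, hl1, fun x hx n _ => ?_⟩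
  refine (hPRC d m r μ (max B (d ^ K)) hbdd |(x : ℝ)| n x).trans (ENNReal.ofReal_le_ofReal ?_)
  have hx0 : 0 < |(x : ℝ)| := by linarith
  have hd := h |(x : ℝ)| hx (fun u => μ.real {u}) (fun u => measureReal_nonneg) hsum hLaw.mass n x
  have hV : Vm |(x : ℝ)| θ x = |(x : ℝ)| ^ (-θ) := if_neg (lt_irrefl _)
  rw [hV] at hd
  have hone : |(x : ℝ)| ^ θ * |(x : ℝ)| ^ (-θ) = 1 := by
    rw [← Real.rpow_add hx0, add_neg_cancel, Real.rpow_zero]
  have hpt : ∀ z : ℤ, (if z = x ∧ |(x : ℝ)| ≤ |(z : ℝ)| then (1 : ℝ) else 0) ≤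
      |(x : ℝ)| ^ θ * Vm |(x : ℝ)| θ z := by
    intro z
    split_ifs with hz
    · rw [hz.1, hV, hone]
    · unfold Vm
      split_ifs
      · rw [mul_zero]
      · positivity
  have h1 := Q_iter_le (d := d) (m := m) (r := r) (B := max B (d ^ K)) (M := |(x : ℝ)|)
    (w := fun u => μ.real {u}) (fun u => measureReal_nonneg) hpt n x
  have h2 : |(x : ℝ)| ^ θ * (Q d m r (fun u => μ.real {u}) (max B (d ^ K)) |(x : ℝ)|)^[n]
      (Vm |(x : ℝ)| θ) x ≤ |(x : ℝ)| ^ θ * (C * lam ^ n * |(x : ℝ)| ^ (-θ)) :=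
    mul_le_mul_of_nonneg_left hd (by positivity)
  have h3 : |(x : ℝ)| ^ θ * (C * lam ^ n * |(x : ℝ)| ^ (-θ)) = C * lam ^ n := by
    calc |(x : ℝ)| ^ θ * (C * lam ^ n * |(x : ℝ)| ^ (-θ))
        = C * lam ^ n * (|(x : ℝ)| ^ θ * |(x : ℝ)| ^ (-θ)) := by ring
      _ = C * lam ^ n := by rw [hone, mul_one]
  have h4 : C * lam ^ n ≤ C * lam ^ n * (1 + |(x : ℝ)|) := by
    have h5 : 0 ≤ C * lam ^ n * |(x : ℝ)| := by positivity
    linarith
  exact h1.trans (h2.trans (h3.le.trans h4))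

end Pool.Agent.U394.CY
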